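import Pool.Agent.N245.EulerMain

/-!
# The direction of the vorticity at one point of maximal vorticity, with no condition on the velocity

Criteria of Constantin, Fefferman and Majda for the Euler equations ask that the direction of the
vorticity be regular and that the velocity be bounded in the region of high vorticity. Here the only
information on the velocity is its conserved energy (or an energy in one ball), and the direction is
compared only with the direction at one single point `x(t)` where `|ω(t, ·)|` is maximal: its angle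
`φ` with the direction at `y` satisfies `sin φ ≤ (G(t) |y - x(t)|)^β`, `cos φ ≥ 1/2`, for
`|y - x(t)| < 1 / G(t)`.

* No singularity occurs if `∫ (G^β Ω^(1 - 2β/5) + G^(5/2)) dt < ∞`, `Ω(t) = max |ω(t, ·)|`.
* At a Type I singularity, `Ω(t) ≤ C₁ / (T - t)`, the direction varies at each point of maximal
  vorticity at the length scale `E^(1/5) (T - t)^(2/5)`, where `E` is the energy. This is the scale
  at which a self-similar singularity conserves the energy.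
* If the direction varies at a fixed scale, then `Ω(t)` grows faster than `(T - t)^(-a)` for each
  `a < 5 / (5 - 2β)`; for `β = 1` this is each `a < 5/3`.
-/

open MeasureTheory Set
open scoped ENNReal Topology

namespace Pool.Agent.Results.MP_b0497c_an.DirectionScale

open Pool.Agent.H708R2.EulerSign Pool.Agent.H708R2.EulerTypeI Pool.Agent.W786.Dir
  Pool.Agent.W786.Max Pool.Agent.N245.EulerLoc

/-- For `0 < β ≤ 1` there are `K, c > 0` such that the following hold.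
(1) For a divergence-free `C²` field `v`, a point `x` at which the vorticity is coherent at the
scale `1 / G`, `|ω| ≤ Ω` and `∫ |v - a|² ≤ F²` in the ball `B(x, 1/G)`: the stretching rate at `x`
is at most `K (Ω (G (F/Ω)^(2/5))^β + F G^(5/2))`.
(2) Let `(u, p)` be a `C²` periodic solution of the Euler equations on `[0, T)` and
`|ω(t, ·)| ≤ Ω(t)` on `(t₀, T)`. If for a.e. `t` there is a point of maximal vorticity at which
the vorticity is coherent at the scale `1 / G(t)` (or at most `Λ`), and either `G ≥ 1` and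
`∫ (G^β Ω^(1 - 2β/5) + G^(5/2)) < ∞`, or the energy in the ball is at most `F(t)²` in some frame and
`∫ (F^(2β/5) G^β Ω^(1 - 2β/5) + F G^(5/2)) < ∞`, then the vorticity is bounded and the
Beale-Kato-Majda integral is finite.
(3) Type I: if `|ω| ≤ C₁ / (T - t)` near `T`, and for `t` near `T` there is a point of maximal
vorticity at which the vorticity is coherent at the scale `1 / G(t)` (or at most `(T - t)^(-1/2)`),
where `(T - t)^(2/5) G(t) E^(1/5) ≤ c C₁^(2/5 - 1/β)` with `G ≥ 1` and the energy `E`, or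
`(T - t)^(2/5) G(t) F(t)^(2/5) ≤ c C₁^(2/5 - 1/β)` with the energy `F(t)²` of the ball, then
`ω = O((T - t)^(-1/2))` and the Beale-Kato-Majda integral is finite.
(4) If for `t` near `T` the vorticity is coherent at a fixed scale `1 / G` at a point of maximal
vorticity (or at most `Λ` there), and `ω = O((T - t)^(-a))` with `a (1 - 2β/5) < 1`, then the
Beale-Kato-Majda integral is finite. -/
theorem result (β : ℝ) (hβ : 0 < β) (hβ1 : β ≤ 1) : ∃ K c : ℝ, 0 < K ∧ 0 < c ∧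
    (∀ (v : V → V) (x a : V) (G F Ω : ℝ), ContDiff ℝ 2 v → (∀ y, divergence v y = 0) →
      0 < G → 0 < F → 0 < Ω → Coherent v x G β →
      ∫ y in B x (1 / G), nrm (v y - a) ^ 2 ≤ F ^ 2 →
      (∀ y, nrm (y - x) < 1 / G → nrm (vort v y) ≤ Ω) →
      |vort v x ⬝ᵥ (grad v x).mulVec (vort v x)| ≤
        K * (Ω * (G * (F / Ω) ^ (2 / 5 : ℝ)) ^ β + F * G ^ (5 / 2 : ℝ)) *
          (vort v x ⬝ᵥ vort v x)) ∧
    (∀ (T t₀ Λ : ℝ) (u : ℝ → V → V) (p : ℝ → V → ℝ) (G F Ω : ℝ → ℝ), IsC2Solution T u p →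
      t₀ ∈ Ico 0 T → (∀ t ∈ Ioo t₀ T, ∀ x, nrm (vort (u t) x) ≤ Ω t) →
      ((IntegrableOn (fun t => G t ^ β * Ω t ^ (1 - 2 * β / 5)) (Ioo t₀ T) ∧
        IntegrableOn (fun t => G t ^ (5 / 2 : ℝ)) (Ioo t₀ T) ∧
        ∀ᵐ t, t ∈ Ioo t₀ T → 1 ≤ G t ∧ ∃ x, IsMaxPt u t x ∧
          (Λ < nrm (vort (u t) x) → Coherent (u t) x (G t) β)) ∨
      (IntegrableOn (fun t => F t ^ (2 * β / 5) * G t ^ β * Ω t ^ (1 - 2 * β / 5) +
          F t * G t ^ (5 / 2 : ℝ)) (Ioo t₀ T) ∧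
        ∀ᵐ t, t ∈ Ioo t₀ T → 0 < G t ∧ 0 < F t ∧ ∃ x, IsMaxPt u t x ∧
          (Λ < nrm (vort (u t) x) →
            Coherent (u t) x (G t) β ∧ LocalEnergyLE (u t) x (G t) (F t)))) →
      (∃ C : ℝ, ∀ t ∈ Ioo t₀ T, ∀ x, nrm (vort (u t) x) ≤ C) ∧ BKMFinite T u) ∧
    (∀ (T C₁ : ℝ) (u : ℝ → V → V) (p : ℝ → V → ℝ) (G F : ℝ → ℝ), 0 < T → 1 ≤ C₁ →
      IsC2Solution T u p →
      (∀ᶠ t in 𝓝[<] T, ∀ x, (T - t) * nrm (vort (u t) x) ≤ C₁) →
      ((∀ᶠ t in 𝓝[<] T, 1 ≤ G t ∧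
        (T - t) ^ (2 / 5 : ℝ) * G t * energy (u 0) ^ (1 / 5 : ℝ) ≤ c * C₁ ^ (2 / 5 - 1 / β) ∧
        ∃ x, IsMaxPt u t x ∧
          (1 / Real.sqrt (T - t) < nrm (vort (u t) x) → Coherent (u t) x (G t) β)) ∨
      (∀ᶠ t in 𝓝[<] T, 0 < G t ∧ 0 < F t ∧
        (T - t) ^ (2 / 5 : ℝ) * G t * F t ^ (2 / 5 : ℝ) ≤ c * C₁ ^ (2 / 5 - 1 / β) ∧
        ∃ x, IsMaxPt u t x ∧
          (1 / Real.sqrt (T - t) < nrm (vort (u t) x) →
            Coherent (u t) x (G t) β ∧ LocalEnergyLE (u t) x (G t) (F t)))) →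
      (∃ C : ℝ, ∀ᶠ t in 𝓝[<] T, ∀ x, nrm (vort (u t) x) ≤ C / Real.sqrt (T - t)) ∧
      BKMFinite T u) ∧
    (∀ (T a C G Λ : ℝ) (u : ℝ → V → V) (p : ℝ → V → ℝ), 0 < T → a * (1 - 2 * β / 5) < 1 →
      1 ≤ G → IsC2Solution T u p →
      (∀ᶠ t in 𝓝[<] T, ∀ x, (T - t) ^ a * nrm (vort (u t) x) ≤ C) →
      (∀ᶠ t in 𝓝[<] T, ∃ x, IsMaxPt u t x ∧
        (Λ < nrm (vort (u t) x) → Coherent (u t) x G β)) →
      BKMFinite T u) := by
  refine ⟨Kc β, cI β, Kc_pos hβ, cI_pos hβ, ?_, ?_, ?_, ?_⟩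
  · intro v x a G F Ω hv hdiv hG hF hΩ hc hE hΩ2
    exact stretch_coh hv hdiv hβ hβ1 hG hF hΩ hc hE hΩ2
  · intro T t₀ Λ u p G F Ω h ht₀ hΩ hyp
    have key : ∃ C : ℝ, ∀ t ∈ Ioo t₀ T, ∀ x, nrm (vort (u t) x) ≤ C := by
      rcases hyp with ⟨h1, h2, h3⟩ | ⟨h1, h2⟩
      · exact crit_bound h hβ hβ1 ht₀ hΩ h1 h2 h3
      · exact crit_loc h hβ hβ1 ht₀ hΩ h1 h2
    obtain ⟨C, hC⟩ := key
    exact ⟨⟨C, hC⟩, bkm_of_bounded h ht₀ hC⟩
  · intro T C₁ u p G F hT hC h hI hd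
    rcases hd with hd | hd
    · exact type_one_coh hβ hβ1 hT h hC hI hd
    · exact type_one_loc hβ hβ1 hT h hC hI hd
  · intro T a C G Λ u p hT ha hG h hΩ hyp
    exact crit_power hβ hβ1 hT h ha hG hΩ hyp

end Pool.Agent.Results.MP_b0497c_an.DirectionScale
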