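import Mathlib
import Pool.Agent.N245.WP.Basic

/-!
# Weak phase retrievable frames with `2n - 2` vectors are nowhere dense
-/

set_option autoImplicit false

open Finset

namespace Pool.Agent.Results.MP_e57dcf_an.NowhereDense

/-- `x` and `y` weakly have the same phase: for some `θ = ± 1`, `sgn x(k) = θ sgn y(k)` for all `k` with
`x(k) y(k) ≠ 0`. -/
def WeakSamePhase {n : ℕ} (x y : EuclideanSpace ℝ (Fin n)) : Prop :=
  ∃ θ : ℝ, (θ = 1 ∨ θ = -1) ∧ ∀ k, x k * y k ≠ 0 → Real.sign (x k) = θ * Real.sign (y k)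

/-- The family `F` of `m` vectors does weak phase retrieval in `ℝ^n`. -/
def WeakPhaseRetrieval {n m : ℕ} (F : Fin m → EuclideanSpace ℝ (Fin n)) : Prop :=
  ∀ x y : EuclideanSpace ℝ (Fin n), (∀ i, |inner ℝ x (F i)| = |inner ℝ y (F i)|) →
    WeakSamePhase x y

/-- The family `F` of `m` vectors is a frame of `ℝ^n`. -/
def IsFrame {n m : ℕ} (F : Fin m → EuclideanSpace ℝ (Fin n)) : Prop :=
  ∃ A B : ℝ, 0 < A ∧ A ≤ B ∧ ∀ x : EuclideanSpace ℝ (Fin n),
    A * ‖x‖ ^ 2 ≤ ∑ i, |inner ℝ x (F i)| ^ 2 ∧ ∑ i, |inner ℝ x (F i)| ^ 2 ≤ B * ‖x‖ ^ 2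

/-- For every `n ≥ 2` the set of the frames of `2n - 2` vectors of `ℝ^n` which do weak phase retrieval is
not dense in the set of all frames of `2n - 2` vectors, and its closure in `(ℝ^n)^(2n-2)` has empty
interior. -/
theorem result : ∀ n : ℕ, 2 ≤ n →
    ¬ ({F : Fin (2 * n - 2) → EuclideanSpace ℝ (Fin n) | IsFrame F} ⊆
      closure {F | IsFrame F ∧ WeakPhaseRetrieval F}) ∧
    interior (closure {F : Fin (2 * n - 2) → EuclideanSpace ℝ (Fin n) |
      IsFrame F ∧ WeakPhaseRetrieval F}) = ∅ := by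
  intro n hn
  obtain ⟨p, rfl⟩ : ∃ p, n = p + 1 + 1 := ⟨n - 2, by omega⟩
  have h : 2 * (p + 1 + 1) - 2 = p + 1 + (p + 1) := by omega
  rw [h]
  exact Pool.Agent.N245.WP.main p

end Pool.Agent.Results.MP_e57dcf_an.NowhereDense
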