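import Pool.Agent.N245.NsOne

/-!
Regularity of periodic solutions of the Navier-Stokes equations if, at the times at which the
vorticity reaches a new maximum, the stretching kernel of Constantin and Fefferman is bounded from
above, like a power of the distance, near ONE of the points where the maximum is attained.
-/

open MeasureTheory Set
open H459R3.NS

namespace Pool.Agent.N245.Shelf.OnePeakPoint

/-- The Euclidean length of a vector of `ℝ³`. -/
noncomputable def len (a : V) : ℝ := Real.sqrt (∑ i, a i ^ 2)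

/-- The curl of a vector field. -/
noncomputable def curl (v : V → V) (x : V) : V :=
  ![pd 1 (fun y => v y 2) x - pd 2 (fun y => v y 1) x,
    pd 2 (fun y => v y 0) x - pd 0 (fun y => v y 2) x,
    pd 0 (fun y => v y 1) x - pd 1 (fun y => v y 0) x]

/-- `(w · a) det(w, b, a)`: up to the factor `3 / (4π |w|⁵)` the contribution of the vorticity `b`
at the point `x + w` to the stretching `a · (∇u) a` of the vorticity `a` at the point `x`. -/
noncomputable def kernel (w a b : V) : ℝ := (∑ i, w i * a i) * ∑ i, w i * crossProduct b a i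

/-- The vorticity of `u` attains its maximum over `[0, t] × ℝ³` at `(t, x)`. -/
def IsPeak (u : ℝ → V → V) (t : ℝ) (x : V) : Prop :=
  ∀ s ∈ Icc 0 t, ∀ y, len (curl (u s) y) ≤ len (curl (u t) x)

lemma len_eq (a : V) : len a = Pool.Agent.H708R2.EulerTypeI.nrm a := by
  unfold len Pool.Agent.H708R2.EulerTypeI.nrm
  congr 1
  simp only [dotProduct, sq]

lemma kernel_eq (w a b : V) : kernel w a b =
    -((w ⬝ᵥ a) * (b ⬝ᵥ Pool.Agent.W786.Dir.cross w a)) := by
  unfold kernel Pool.Agent.W786.Dir.cross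
  rw [cross_apply]
  simp only [dotProduct, Fin.sum_univ_three, Matrix.cons_val_zero, Matrix.cons_val_one,
    Matrix.cons_val]
  ring

/-- **A criterion at one peak point.** Let `(u, p)` be a smooth periodic solution of the
Navier-Stokes equations on `[0, T)`, `ω = curl u`, `0 < β ≤ 1` and
`0 ≤ θ < (3 - 2β) / (3 - β)`; if `β < 1` suppose that `‖ω(t)‖_∞` to the power
`(3 - 2β) / (3 - β)` is integrable (this power is `1 / 2` if `β = 1`). Suppose that for almost all
`t` such that the maximum of `|ω|` over `[0, t] × ℝ³` is attained at the time `t` there is a point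
`x` where it is attained such that
`((y - x) · ω(x)) det(y - x, ω(y), ω(x)) ≤ c |y - x| ^ (2 + β) |ω(x)|² |ω(y)|`
for all `y` with `|y - x| < r(t)` and `|ω(y)| > K (1 + |ω(x)|) ^ θ`, where
`∫ r(t) ^ (-5/2) dt < ∞`. Then there is no blow-up at the time `T`. -/
theorem result {ν T : ℝ} (hν : 0 < ν) {u : ℝ → V → V} {p : ℝ → V → ℝ} (h : IsSol ν T u p)
    {β θ c K : ℝ} (hβ : 0 < β) (hβ1 : β ≤ 1) (hθ : 0 ≤ θ) (hθ1 : θ < (3 - 2 * β) / (3 - β))
    (hint : β < 1 → IntegrableOn
      (fun t => (⨆ x, len (curl (u t) x)) ^ ((3 - 2 * β) / (3 - β))) (Ioo 0 T))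
    {r : ℝ → ℝ} (hr : ∀ t ∈ Ioo 0 T, 0 < r t)
    (hri : IntegrableOn (fun t => r t ^ (-(5 / 2) : ℝ)) (Ioo 0 T))
    (hpeak : ∀ᵐ t, t ∈ Ioo 0 T → (∃ x, IsPeak u t x) → ∃ x, IsPeak u t x ∧
      ∀ y, len (y - x) < r t → K * (1 + len (curl (u t) x)) ^ θ < len (curl (u t) y) →
        kernel (y - x) (curl (u t) x) (curl (u t) y) ≤
          c * len (y - x) ^ (2 + β) * (len (curl (u t) x) ^ 2 * len (curl (u t) y))) :
    (∃ A, ∀ t ∈ Ico 0 T, enstrophy (u t) ≤ A) ∧ ∃ M, ∀ t ∈ Ico 0 T, ∀ x i, |u t x i| ≤ M := by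
  have hcurl : ∀ t ∈ Ico 0 T, ∀ x,
      Pool.Agent.H708R2.EulerTypeI.vort (u t) x = curl (u t) x := fun t ht x =>
    congrFun (Pool.Agent.N245.NS.vort_cu fun i => h.sp ht i) x
  rcases le_or_gt T 0 with hT | hT
  · exact Pool.Agent.N245.NS.bounded_of_om (B := 0) h hν fun t ht =>
      absurd (ht.1.trans_lt ht.2) (by linarith)
  set G : ℝ := (1 + |c|) ^ (1 / β) with hG
  have hG0 : 0 < G := by positivity
  have hGβ : G ^ β = 1 + |c| := by
    rw [hG, ← Real.rpow_mul (by positivity), one_div, inv_mul_cancel₀ hβ.ne', Real.rpow_one]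
  have hmin : ∀ t ∈ Ioo 0 T, (min (r t) (1 / 2)) ^ (-(5 / 2) : ℝ) =
      max (r t ^ (-(5 / 2) : ℝ)) ((1 / 2 : ℝ) ^ (-(5 / 2) : ℝ)) := by
    intro t ht
    have hr0 := hr t ht
    rcases le_total (r t) (1 / 2) with hle | hle
    · rw [min_eq_left hle, max_eq_left]
      exact Real.rpow_le_rpow_of_nonpos hr0 hle (by norm_num)
    · rw [min_eq_right hle, max_eq_right]
      exact Real.rpow_le_rpow_of_nonpos (by norm_num) hle (by norm_num)
  obtain ⟨B, hB⟩ := Pool.Agent.N245.NS.om_bounded (β := β) (θ := θ) (G := G) (K := |K|) h hν hT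
    hβ hβ1 hθ hθ1 hG0 (abs_nonneg K) (fun hb => by
      refine (hint hb).congr_fun (fun t ht => ?_) measurableSet_Ioo
      have e : (fun x => len (curl (u t) x)) = fun x =>
          Pool.Agent.H708R2.EulerTypeI.nrm (Pool.Agent.H708R2.EulerTypeI.vort (u t) x) := by
        funext x
        rw [len_eq, hcurl t ⟨ht.1.le, ht.2⟩]
      show (⨆ x, len (curl (u t) x)) ^ _ = _
      rw [e])
    (r := fun t => min (r t) (1 / 2))
    (fun t ht => ⟨lt_min (hr t ht) (by norm_num), min_le_right _ _⟩) (by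
      have h1 : IntegrableOn (fun t => max (r t ^ (-(5 / 2) : ℝ)) ((1 / 2 : ℝ) ^ (-(5 / 2) : ℝ)))
          (Ioo 0 T) := by
        have h2 : IntegrableOn (fun _ : ℝ => (1 / 2 : ℝ) ^ (-(5 / 2) : ℝ)) (Ioo 0 T) :=
          integrableOn_const (by rw [Real.volume_Ioo]; exact ENNReal.ofReal_ne_top)
        exact Integrable.sup hri h2
      exact h1.congr_fun (fun t ht => (hmin t ht).symm) measurableSet_Ioo) (by
    filter_upwards [hpeak] with t ht htT hz
    have htI : t ∈ Ico 0 T := ⟨htT.1.le, htT.2⟩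
    have hIco : ∀ s ∈ Icc 0 t, s ∈ Ico 0 T := fun s hs => ⟨hs.1, hs.2.trans_lt htT.2⟩
    have htr : ∀ x, IsPeak u t x ↔ ∀ s ∈ Icc 0 t, ∀ y,
        Pool.Agent.H708R2.EulerTypeI.nrm (Pool.Agent.H708R2.EulerTypeI.vort (u s) y) ≤
        Pool.Agent.H708R2.EulerTypeI.nrm (Pool.Agent.H708R2.EulerTypeI.vort (u t) x) := by
      intro x
      unfold IsPeak
      refine forall₂_congr fun s hs => forall_congr' fun y => ?_
      rw [len_eq, len_eq, hcurl s (hIco s hs), hcurl t htI]
    obtain ⟨z, hz⟩ := hz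
    obtain ⟨x, hx1, hx2⟩ := ht htT ⟨z, (htr z).2 hz⟩
    refine ⟨x, (htr x).1 hx1, fun y hy hKy => ?_⟩
    rw [hcurl t htI, hcurl t htI] at hKy ⊢
    rw [← len_eq, ← len_eq] at hKy
    rw [← kernel_eq, ← len_eq, ← len_eq, ← len_eq]
    have hlen : len (y - x) < r t := by
      rw [len_eq]
      exact hy.trans_le (min_le_left _ _)
    have hw0 : 0 ≤ len (y - x) := Real.sqrt_nonneg _
    have hx0 : 0 ≤ len (curl (u t) x) := Real.sqrt_nonneg _
    have hy0 : 0 ≤ len (curl (u t) y) := Real.sqrt_nonneg _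
    have hpow : 0 ≤ (1 + len (curl (u t) x)) ^ θ := Real.rpow_nonneg (by linarith) _
    have h1 := hx2 y hlen (lt_of_le_of_lt
      (mul_le_mul_of_nonneg_right (le_abs_self K) hpow) hKy)
    refine h1.trans ?_
    have h2 : len (y - x) ^ (2 + β) = len (y - x) ^ 2 * len (y - x) ^ β := by
      rw [Real.rpow_add_of_nonneg hw0 (by norm_num) hβ.le, Real.rpow_two]
    rw [h2, Real.mul_rpow hG0.le hw0, hGβ]
    have h3 : 0 ≤ len (y - x) ^ 2 * len (y - x) ^ β *
        (len (curl (u t) x) ^ 2 * len (curl (u t) y)) := by positivity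
    have h4 : c ≤ 1 + |c| := by linarith [le_abs_self c]
    calc c * (len (y - x) ^ 2 * len (y - x) ^ β) *
          (len (curl (u t) x) ^ 2 * len (curl (u t) y))
        = c * (len (y - x) ^ 2 * len (y - x) ^ β *
          (len (curl (u t) x) ^ 2 * len (curl (u t) y))) := by ring
      _ ≤ (1 + |c|) * (len (y - x) ^ 2 * len (y - x) ^ β *
          (len (curl (u t) x) ^ 2 * len (curl (u t) y))) := mul_le_mul_of_nonneg_right h4 h3
      _ = _ := by ring)
  exact Pool.Agent.N245.NS.bounded_of_om h hν hB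

end Pool.Agent.N245.Shelf.OnePeakPoint
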