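import Mathlib
import Pool.Agent.R245.PB.Gal
set_option autoImplicit false

/-!
# The extension conjecture in `ℝ³` for functions regular along the rays from a point

`ext U f ξ = ∫_U e^{-i Φ(x)·ξ} f(x) dx`, `Φ(x) = (x_1, x_2, x_1² + x_2²)`. The inequality
`‖ext f‖_q ≤ C ‖f‖_q` of the problem is proved in the full conjectured range `q > 3`

* for nonnegative functions which are nonincreasing along the rays from a point `a`, that is, whose
  superlevel sets are star-shaped with respect to `a` (for instance `f = 1_A` for every star-shaped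
  measurable set `A`, however rough), and for their products with the characters
  `e^{i Φ(x)·b}`, `b ∈ ℝ³`;
* for complex functions of bounded variation along the rays from `a`, with the variation beyond `x`,
  on the ray through `x`, in the place of `|f(x)|` on the right-hand side.

Nothing is assumed about the dependence on the angle. The centre `a` is an arbitrary point of the
plane, `R` is the radius of a disc around `a` which contains the support, and the constant depends
on `q` only; the power of `R` is the one dictated by scaling.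
-/

namespace Pool.Agent.N245.Shelf.RayMonotone

open MeasureTheory Set Metric Complex
open scoped ENNReal NNReal RealInnerProductSpace

abbrev E (n : ℕ) := EuclideanSpace ℝ (Fin n)

/-- the paraboloid `x ↦ (x_1, x_2, x_1^2 + x_2^2)` -/
noncomputable def Phi (x : E 2) : E 3 := !₂[x 0, x 1, x 0 ^ 2 + x 1 ^ 2]

/-- the Fourier extension operator of the paraboloid over `U` -/
noncomputable def ext (U : Set (E 2)) (f : E 2 → ℂ) (ξ : E 3) : ℂ :=
  ∫ x in U, Complex.exp (-((⟪Phi x, ξ⟫ : ℝ) : ℂ) * I) * f x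

/-- the function `f` multiplied by the character `x ↦ e^{i Φ(x)·b}` -/
noncomputable def modulate (b : E 3) (f : E 2 → ℂ) (x : E 2) : ℂ :=
  Complex.exp (((⟪Phi x, b⟫ : ℝ) : ℂ) * I) * f x

/-- `v x` bounds the total variation of `f` on the part beyond `x` of the ray from `a` through
`x` -/
def VariationBeyond (a : E 2) (f : E 2 → ℂ) (v : E 2 → ℝ≥0∞) : Prop :=
  ∀ x, eVariationOn (fun s : ℝ => f (a + s • (x - a))) (Ici 1) ≤ v x

/-- `g` is nonincreasing along the rays from `a` -/
def RayNonincreasing (a : E 2) (g : E 2 → ℝ) : Prop :=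
  ∀ x, ∀ s : ℝ, 1 ≤ s → g (a + s • (x - a)) ≤ g x

lemma ext_univ (f : E 2 → ℂ) : ext univ f = Pool.Agent.R245.PB.ext3 f := by
  funext ξ
  unfold ext Pool.Agent.R245.PB.ext3
  rw [Measure.restrict_univ]
  congr 1
  funext x
  congr 2
  unfold Phi Pool.Agent.R245.PB.Ph3
  ring

lemma ext_of_zero {U : Set (E 2)} {f : E 2 → ℂ} (hf : ∀ x, x ∉ U → f x = 0) :
    ext U f = ext univ f := by
  funext ξ
  unfold ext
  rw [Measure.restrict_univ]
  refine setIntegral_eq_integral_of_forall_compl_eq_zero fun x hx => ?_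
  rw [hf x hx, mul_zero]

lemma ext_modulate (b : E 3) (f : E 2 → ℂ) (ξ : E 3) :
    ext univ (modulate b f) ξ = ext univ f (ξ - b) := by
  unfold ext modulate
  congr 1
  funext x
  rw [← mul_assoc, ← Complex.exp_add, inner_sub_right]
  congr 2
  push_cast
  ring

lemma lint_modulate (b : E 3) (f : E 2 → ℂ) (q : ℝ) :
    ∫⁻ ξ, ‖ext univ (modulate b f) ξ‖ₑ ^ q = ∫⁻ ξ, ‖ext univ f ξ‖ₑ ^ q := by
  simp only [ext_modulate]
  exact lintegral_sub_right_eq_self (fun ξ => ‖ext univ f ξ‖ₑ ^ q) b

lemma ext_le (f : E 2 → ℂ) (ξ : E 3) : ‖ext univ f ξ‖ₑ ≤ ∫⁻ x, ‖f x‖ₑ := by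
  unfold ext
  rw [Measure.restrict_univ]
  refine (enorm_integral_le_lintegral_enorm _).trans (le_of_eq ?_)
  congr 1
  funext x
  rw [enorm_mul]
  have h1 : ‖Complex.exp (-((⟪Phi x, ξ⟫ : ℝ) : ℂ) * I)‖ₑ = 1 := by
    rw [← ofReal_norm, show -((⟪Phi x, ξ⟫ : ℝ) : ℂ) * I = ((-⟪Phi x, ξ⟫ : ℝ) : ℂ) * I by push_cast; ring,
      Complex.norm_exp_ofReal_mul_I, ENNReal.ofReal_one]
  rw [h1, one_mul]

lemma ext_measurable {f : E 2 → ℂ} (hf : Measurable f) : Measurable (ext univ f) := by
  unfold ext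
  refine (StronglyMeasurable.integral_prod_right (f := fun (ξ : E 3) (x : E 2) =>
    Complex.exp (-((⟪Phi x, ξ⟫ : ℝ) : ℂ) * I) * f x) ?_).measurable
  refine Measurable.stronglyMeasurable ?_
  have hP : Measurable fun p : E 3 × E 2 => (⟪Phi p.2, p.1⟫ : ℝ) := by
    have hPhi : Continuous Phi := by
      unfold Phi
      refine (PiLp.continuous_toLp 2 _).comp ?_
      refine continuous_pi fun i => ?_
      fin_cases i <;> simp <;> fun_prop
    exact ((hPhi.comp continuous_snd).inner continuous_fst).measurable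
  exact (Complex.measurable_exp.comp (((Complex.measurable_ofReal.comp hP).neg).mul_const I)).mul
    (hf.comp measurable_snd)

/-- Hölder's inequality on a set of finite measure. -/
lemma holder_univ {α : Type*} [MeasurableSpace α] (μ : Measure α) {f : α → ℝ≥0∞}
    (hf : AEMeasurable f μ) {s t : ℝ} (hs : 0 < s) (hst : s ≤ t) :
    ∫⁻ x, f x ^ s ∂μ ≤ (∫⁻ x, f x ^ t ∂μ) ^ (s / t) * μ univ ^ (1 - s / t) := by
  have ht : 0 < t := hs.trans_le hst
  have h := eLpNorm'_le_eLpNorm'_mul_rpow_measure_univ (f := f) (μ := μ) hs hst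
    hf.aestronglyMeasurable
  unfold eLpNorm' at h
  simp only [enorm_eq_self] at h
  have h2 := ENNReal.rpow_le_rpow h hs.le
  rw [← ENNReal.rpow_mul, ENNReal.mul_rpow_of_nonneg _ _ hs.le, ← ENNReal.rpow_mul,
    ← ENNReal.rpow_mul, one_div_mul_cancel hs.ne', ENNReal.rpow_one] at h2
  refine h2.trans (le_of_eq ?_)
  congr 2
  · field_simp
  · field_simp

lemma var_outside {a : E 2} {R : ℝ} {f : E 2 → ℂ} (hR : ∀ x, R < ‖x - a‖ → f x = 0) {x : E 2}
    (hx : R < ‖x - a‖) : eVariationOn (fun s : ℝ => f (a + s • (x - a))) (Ici 1) = 0 := by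
  have h0 : ∀ s : ℝ, s ∈ Ici (1 : ℝ) → f (a + s • (x - a)) = 0 := by
    intro s hs
    apply hR
    rw [add_sub_cancel_left, norm_smul, Real.norm_eq_abs]
    have h1 : (1 : ℝ) ≤ |s| := le_trans hs (le_abs_self s)
    nlinarith [norm_nonneg (x - a)]
  have h1 : EqOn (fun s : ℝ => f (a + s • (x - a))) (fun _ : ℝ => (0 : ℂ)) (Ici 1) := fun s hs =>
    h0 s hs
  rw [eVariationOn.congr h1]
  refine eVariationOn.constant_on ?_
  rintro _ ⟨s, -, rfl⟩ _ ⟨t, -, rfl⟩
  rfl

lemma enorm_le_var {a : E 2} {R : ℝ} {f : E 2 → ℂ} (hR : ∀ x, R < ‖x - a‖ → f x = 0) {x : E 2}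
    (hx : x ≠ a) : ‖f x‖ₑ ≤ eVariationOn (fun s : ℝ => f (a + s • (x - a))) (Ici 1) := by
  have hn : 0 < ‖x - a‖ := norm_pos_iff.2 (sub_ne_zero.2 hx)
  obtain ⟨s, hs1, hs2⟩ : ∃ s : ℝ, 1 ≤ s ∧ R < s * ‖x - a‖ := by
    refine ⟨max 1 ((|R| + 1) / ‖x - a‖), le_max_left _ _, ?_⟩
    have h1 : (|R| + 1) / ‖x - a‖ * ‖x - a‖ = |R| + 1 := div_mul_cancel₀ _ hn.ne'
    have h2 : (|R| + 1) / ‖x - a‖ * ‖x - a‖ ≤ max 1 ((|R| + 1) / ‖x - a‖) * ‖x - a‖ :=
      mul_le_mul_of_nonneg_right (le_max_right _ _) hn.le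
    linarith [le_abs_self R]
  have h := eVariationOn.edist_le (fun s : ℝ => f (a + s • (x - a))) (s := Ici (1 : ℝ))
    (x := 1) (y := s) (mem_Ici.2 le_rfl) hs1
  simp only [one_smul, add_sub_cancel] at h
  rw [hR (a + s • (x - a)) (by
    rw [add_sub_cancel_left, norm_smul, Real.norm_eq_abs, abs_of_nonneg (by linarith)]
    exact hs2), edist_zero_right] at h
  exact h

/-- The variation form, for all `q > 3`, with the support in a disc of radius `R` around `a`. -/
lemma variation {q : ℝ} (hq : 3 < q) : ∃ C : ℝ, 0 < C ∧ ∀ (a : E 2) (R : ℝ) (f : E 2 → ℂ)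
    (v : E 2 → ℝ≥0∞), 0 < R → Measurable f → Measurable v → (∀ x, R < ‖x - a‖ → f x = 0) →
    VariationBeyond a f v →
    ∫⁻ ξ, ‖ext univ f ξ‖ₑ ^ q ≤ ENNReal.ofReal (C * R ^ (2 * q - 6)) * ∫⁻ x, v x ^ q := by
  by_cases hq4 : q < 4
  · obtain ⟨C, hC, h⟩ := Pool.Agent.R245.PB.mainP hq hq4
    refine ⟨C, hC, fun a R f v hR hf hv h0 hvar => ?_⟩
    rw [ext_univ]
    exact h a R f v hR hf hv h0 hvar
  · rw [not_lt] at hq4
    obtain ⟨C, hC, h⟩ := Pool.Agent.R245.PB.mainP (p := 7 / 2) (by norm_num) (by norm_num)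
    refine ⟨C * Real.pi ^ (q - 7 / 2), by positivity, fun a R f v hR hf hv h0 hvar => ?_⟩
    have hw : ∀ x, eVariationOn (fun s : ℝ => f (a + s • (x - a))) (Ici 1) ≤
        (closedBall a R).indicator v x := by
      intro x
      by_cases hx : x ∈ closedBall a R
      · rw [indicator_of_mem hx]
        exact hvar x
      · rw [mem_closedBall, dist_eq_norm, not_le] at hx
        rw [var_outside h0 hx]
        exact zero_le
    have hwm : Measurable ((closedBall a R).indicator v) := hv.indicator measurableSet_closedBall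
    have h1 := h a R f _ hR hf hwm h0 hw
    rw [← ext_univ] at h1
    have h2 : ∀ ξ, ‖ext univ f ξ‖ₑ ≤ ∫⁻ x in closedBall a R, v x := by
      intro ξ
      refine (ext_le f ξ).trans ?_
      rw [← lintegral_indicator measurableSet_closedBall]
      refine lintegral_mono_ae ?_
      have hne : ∀ᵐ x : E 2, x ≠ a := by
        rw [ae_iff]
        simp
      filter_upwards [hne] with x hx
      exact (enorm_le_var h0 hx).trans (hw x)
    have h3 : ∫⁻ ξ, ‖ext univ f ξ‖ₑ ^ q ≤ (∫⁻ x in closedBall a R, v x) ^ (q - 7 / 2) *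
        ∫⁻ ξ, ‖ext univ f ξ‖ₑ ^ (7 / 2 : ℝ) := by
      have hm : Measurable fun ξ => ‖ext univ f ξ‖ₑ ^ (7 / 2 : ℝ) := by
        exact (ext_measurable hf).enorm.pow_const _
      rw [← lintegral_const_mul _ hm]
      refine lintegral_mono fun ξ => ?_
      have e : ‖ext univ f ξ‖ₑ ^ q = ‖ext univ f ξ‖ₑ ^ (q - 7 / 2) * ‖ext univ f ξ‖ₑ ^ (7 / 2 : ℝ) := by
        rw [← ENNReal.rpow_add_of_nonneg _ _ (by linarith) (by norm_num)]
        congr 1
        ring
      rw [e]
      exact mul_le_mul' (ENNReal.rpow_le_rpow (h2 ξ) (by linarith)) le_rfl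
    have h4 : ∫⁻ x in closedBall a R, v x ≤ (∫⁻ x in closedBall a R, v x ^ q) ^ (1 / q) *
        volume (closedBall a R) ^ (1 - 1 / q) := by
      have := holder_univ (volume.restrict (closedBall a R)) hv.aemeasurable (s := 1) (t := q)
        one_pos (by linarith)
      simpa using this
    have h5 : ∫⁻ x, (closedBall a R).indicator v x ^ (7 / 2 : ℝ) ≤
        (∫⁻ x in closedBall a R, v x ^ q) ^ (7 / 2 / q) *
        volume (closedBall a R) ^ (1 - 7 / 2 / q) := by
      have := holder_univ (volume.restrict (closedBall a R)) hv.aemeasurable (s := 7 / 2) (t := q)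
        (by norm_num) (by linarith)
      rw [Measure.restrict_apply_univ] at this
      refine le_trans (le_of_eq ?_) this
      rw [← lintegral_indicator measurableSet_closedBall]
      congr 1
      funext x
      by_cases hx : x ∈ closedBall a R
      · rw [indicator_of_mem hx, indicator_of_mem hx]
      · rw [indicator_of_notMem hx, indicator_of_notMem hx, ENNReal.zero_rpow_of_pos (by norm_num)]
    set J := ∫⁻ x in closedBall a R, v x ^ q with hJ
    set B := volume (closedBall a R) with hB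
    have hJle : J ≤ ∫⁻ x, v x ^ q := setLIntegral_le_lintegral _ _
    have hBv : B = ENNReal.ofReal (Real.pi * R ^ 2) := by
      rw [hB, EuclideanSpace.volume_closedBall_fin_two, ENNReal.ofReal_mul Real.pi_pos.le,
        ENNReal.ofReal_pow hR.le, mul_comm]
    have hq0 : (0 : ℝ) < q := by linarith
    calc ∫⁻ ξ, ‖ext univ f ξ‖ₑ ^ q
        ≤ (J ^ (1 / q) * B ^ (1 - 1 / q)) ^ (q - 7 / 2) *
          (ENNReal.ofReal (C * R ^ (2 * (7 / 2) - 6 : ℝ)) *
          (J ^ (7 / 2 / q) * B ^ (1 - 7 / 2 / q))) := by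
          refine h3.trans (mul_le_mul' (ENNReal.rpow_le_rpow h4 (by linarith)) ?_)
          exact h1.trans (mul_le_mul' le_rfl h5)
      _ = ENNReal.ofReal (C * R ^ (2 * (7 / 2) - 6 : ℝ)) * B ^ (q - 7 / 2) * J := by
          rw [ENNReal.mul_rpow_of_nonneg _ _ (by linarith), ← ENNReal.rpow_mul, ← ENNReal.rpow_mul]
          have eJ : J ^ (1 / q * (q - 7 / 2)) * J ^ (7 / 2 / q) = J := by
            rw [← ENNReal.rpow_add_of_nonneg _ _ (by
              apply mul_nonneg (by positivity) (by linarith)) (by positivity)]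
            rw [show 1 / q * (q - 7 / 2) + 7 / 2 / q = 1 by field_simp; ring, ENNReal.rpow_one]
          have eB : B ^ ((1 - 1 / q) * (q - 7 / 2)) * B ^ (1 - 7 / 2 / q) = B ^ (q - 7 / 2) := by
            rw [← ENNReal.rpow_add_of_nonneg _ _ (by
              apply mul_nonneg _ (by linarith)
              rw [sub_nonneg, div_le_one hq0]
              linarith) (by
              rw [sub_nonneg, div_le_one hq0]
              linarith)]
            congr 1
            field_simp
            ring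
          calc _ = ENNReal.ofReal (C * R ^ (2 * (7 / 2) - 6 : ℝ)) *
              (B ^ ((1 - 1 / q) * (q - 7 / 2)) * B ^ (1 - 7 / 2 / q)) *
              (J ^ (1 / q * (q - 7 / 2)) * J ^ (7 / 2 / q)) := by ring
            _ = _ := by rw [eJ, eB]
      _ ≤ ENNReal.ofReal (C * Real.pi ^ (q - 7 / 2) * R ^ (2 * q - 6)) * ∫⁻ x, v x ^ q := by
          refine mul_le_mul' (le_of_eq ?_) hJle
          rw [hBv, ENNReal.ofReal_rpow_of_pos (by positivity),
            ← ENNReal.ofReal_mul (by positivity)]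
          congr 1
          rw [Real.mul_rpow Real.pi_pos.le (by positivity), ← Real.rpow_natCast R 2,
            ← Real.rpow_mul hR.le, show (2 * q - 6 : ℝ) = (2 * (7 / 2) - 6) +
              ((2 : ℕ) : ℝ) * (q - 7 / 2) by push_cast; ring, Real.rpow_add hR]
          ring

lemma variation_mono {q : ℝ} (hq : 3 < q) : ∃ C : ℝ, 0 < C ∧
    (∀ (a : E 2) (R : ℝ) (b : E 3) (f : E 2 → ℂ) (v : E 2 → ℝ≥0∞), 0 < R → Measurable f →
      Measurable v → (∀ x, R < ‖x - a‖ → f x = 0) → VariationBeyond a f v →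
      ∫⁻ ξ, ‖ext univ (modulate b f) ξ‖ₑ ^ q ≤
        ENNReal.ofReal (C * R ^ (2 * q - 6)) * ∫⁻ x, v x ^ q) ∧
    (∀ (a : E 2) (R : ℝ) (b : E 3) (g : E 2 → ℝ), 0 < R → Measurable g → (∀ x, 0 ≤ g x) →
      (∀ x, R < ‖x - a‖ → g x = 0) → RayNonincreasing a g →
      ∫⁻ ξ, ‖ext univ (modulate b (fun x => (g x : ℂ))) ξ‖ₑ ^ q ≤
        ENNReal.ofReal (C * R ^ (2 * q - 6)) * ∫⁻ x, ‖g x‖ₑ ^ q) := by
  obtain ⟨C, hC, h⟩ := variation hq
  refine ⟨C, hC, ?_, ?_⟩
  · intro a R b f v hR hf hv h0 hvar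
    rw [lint_modulate]
    exact h a R f v hR hf hv h0 hvar
  · intro a R b g hR hg hg0 h0 hmono
    rw [lint_modulate]
    have hray : ∀ (x : E 2) (s t : ℝ), a + t • ((a + s • (x - a)) - a) = a + (s * t) • (x - a) := by
      intro x s t
      module
    have h6 := h a R (fun x => (g x : ℂ)) (fun x => ENNReal.ofReal (g x)) hR
      (Complex.measurable_ofReal.comp hg) hg.ennreal_ofReal
      (fun x hx => by simp [h0 x hx]) (by
      intro x
      have h1' : a + (1 : ℝ) • (x - a) = x := by module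
      have hv := Pool.Agent.R245.PB.var_ray (w := fun s : ℝ => g (a + s • (x - a)))
        (fun s _ => hg0 _) (fun s t hs hst => by
          have hs0 : 0 < s := by linarith
          have h2 := hmono (a + s • (x - a)) (t / s) (by rw [le_div_iff₀ hs0]; linarith)
          rwa [hray, mul_div_cancel₀ _ hs0.ne'] at h2)
      simp only [h1'] at hv
      exact hv)
    refine h6.trans (le_of_eq ?_)
    congr 2
    funext x
    rw [← ofReal_norm, Real.norm_eq_abs, abs_of_nonneg (hg0 x)]

lemma star_indicator {a : E 2} {A : Set (E 2)} (hA : StarConvex ℝ a A) :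
    RayNonincreasing a (A.indicator fun _ => (1 : ℝ)) := by
  intro x s hs
  by_cases hx : a + s • (x - a) ∈ A
  · have hs0 : (0 : ℝ) < s := by linarith
    have h1 : x ∈ A := by
      have h2 := hA hx (a := 1 - 1 / s) (b := 1 / s)
        (by rw [sub_nonneg, div_le_one hs0]; exact hs) (by positivity) (by ring)
      have e : (1 - 1 / s) • a + (1 / s) • (a + s • (x - a)) = x := by
        rw [smul_add, smul_smul, one_div_mul_cancel hs0.ne']
        module
      rwa [e] at h2
    rw [indicator_of_mem hx, indicator_of_mem h1]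
  · rw [indicator_of_notMem hx]
    exact indicator_nonneg (fun _ _ => zero_le_one) _

lemma enorm_modulate (b : E 3) (f : E 2 → ℂ) (x : E 2) : ‖modulate b f x‖ₑ = ‖f x‖ₑ := by
  unfold modulate
  rw [enorm_mul, ← ofReal_norm, Complex.norm_exp_ofReal_mul_I, ENNReal.ofReal_one, one_mul]

lemma eLpNorm_form {q C : ℝ} (hq : 3 < q) (hC : 0 < C) {U : Set (E 2)} {b : E 3} {f : E 2 → ℂ}
    (hf : ∀ x, x ∉ U → f x = 0)
    (h : ∫⁻ ξ, ‖ext univ (modulate b f) ξ‖ₑ ^ q ≤ ENNReal.ofReal C * ∫⁻ x, ‖f x‖ₑ ^ q) :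
    eLpNorm (ext U (modulate b f)) (ENNReal.ofReal q) volume ≤
      ENNReal.ofReal (C ^ (1 / q)) *
        eLpNorm (modulate b f) (ENNReal.ofReal q) (volume.restrict U) := by
  have hq0 : (0 : ℝ) < q := by linarith
  have hm0 : ∀ x, x ∉ U → modulate b f x = 0 := fun x hx => by simp [modulate, hf x hx]
  rw [eLpNorm_restrict_eq_of_support_subset (s := U) (fun x hx => by
    by_contra hxU
    exact hx (hm0 x hxU)), ext_of_zero hm0,
    eLpNorm_eq_lintegral_rpow_enorm_toReal (by simpa using hq0) ENNReal.ofReal_ne_top,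
    eLpNorm_eq_lintegral_rpow_enorm_toReal (by simpa using hq0) ENNReal.ofReal_ne_top,
    ENNReal.toReal_ofReal hq0.le]
  simp only [enorm_modulate]
  refine (ENNReal.rpow_le_rpow h (by positivity)).trans (le_of_eq ?_)
  rw [ENNReal.mul_rpow_of_nonneg _ _ (by positivity), ENNReal.ofReal_rpow_of_pos hC]

lemma near {U : Set (E 2)} (hU : U ⊆ ball 0 (1 / 2)) {a : E 2} (ha : a ∈ ball (0 : E 2) (1 / 2))
    {x : E 2} (hx : 1 < ‖x - a‖) : x ∉ U := by
  intro hxU
  have h1 : ‖x‖ < 1 / 2 := by simpa using hU hxU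
  have h2 : ‖a‖ < 1 / 2 := by simpa using ha
  linarith [norm_sub_le x a]

/-- **The extension conjecture in `ℝ³` for the functions with star-shaped superlevel sets, and for
the functions of bounded variation along the rays from a point.** -/
theorem result (q : ℝ) (hq : 3 < q) :
    ∃ C : ℝ, 0 < C ∧
      -- functions with star-shaped superlevel sets, in the setting of the problem
      (∀ (U : Set (E 2)) (a : E 2) (b : E 3) (g : E 2 → ℝ), U ⊆ ball 0 (1 / 2) →
        a ∈ ball (0 : E 2) (1 / 2) → Measurable g → (∀ x, 0 ≤ g x) → (∀ x, x ∉ U → g x = 0) →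
        RayNonincreasing a g →
        eLpNorm (ext U (modulate b (fun x => (g x : ℂ)))) (ENNReal.ofReal q) volume ≤
          ENNReal.ofReal C *
            eLpNorm (modulate b (fun x => (g x : ℂ))) (ENNReal.ofReal q) (volume.restrict U)) ∧
      -- star-shaped sets
      (∀ (U : Set (E 2)) (a : E 2) (b : E 3) (A : Set (E 2)), U ⊆ ball 0 (1 / 2) →
        A ⊆ U → MeasurableSet A → StarConvex ℝ a A →
        eLpNorm (ext U (modulate b (A.indicator fun _ => (1 : ℂ)))) (ENNReal.ofReal q) volume ≤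
          ENNReal.ofReal C * volume A ^ (1 / q)) ∧
      -- functions of bounded variation along the rays from a point of the plane
      (∀ (a : E 2) (R : ℝ) (b : E 3) (f : E 2 → ℂ) (v : E 2 → ℝ≥0∞), 0 < R → Measurable f →
        Measurable v → (∀ x, R < ‖x - a‖ → f x = 0) → VariationBeyond a f v →
        ∫⁻ ξ, ‖ext univ (modulate b f) ξ‖ₑ ^ q ≤
          ENNReal.ofReal (C * R ^ (2 * q - 6)) * ∫⁻ x, v x ^ q) ∧
      -- nonincreasing functions along the rays from a point of the plane
      (∀ (a : E 2) (R : ℝ) (b : E 3) (g : E 2 → ℝ), 0 < R → Measurable g → (∀ x, 0 ≤ g x) →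
        (∀ x, R < ‖x - a‖ → g x = 0) → RayNonincreasing a g →
        ∫⁻ ξ, ‖ext univ (modulate b (fun x => (g x : ℂ))) ξ‖ₑ ^ q ≤
          ENNReal.ofReal (C * R ^ (2 * q - 6)) * ∫⁻ x, ‖g x‖ₑ ^ q) := by
  obtain ⟨C, hC, h1, h2⟩ := variation_mono hq
  have hq0 : (0 : ℝ) < q := by linarith
  have hmax : 0 < max C (C ^ (1 / q)) := lt_max_of_lt_left hC
  have key : ∀ (U : Set (E 2)) (a : E 2) (b : E 3) (g : E 2 → ℝ), U ⊆ ball 0 (1 / 2) →
        a ∈ ball (0 : E 2) (1 / 2) → Measurable g → (∀ x, 0 ≤ g x) → (∀ x, x ∉ U → g x = 0) →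
        RayNonincreasing a g →
        eLpNorm (ext U (modulate b (fun x => (g x : ℂ)))) (ENNReal.ofReal q) volume ≤
          ENNReal.ofReal (max C (C ^ (1 / q))) *
            eLpNorm (modulate b (fun x => (g x : ℂ))) (ENNReal.ofReal q)
              (volume.restrict U) := by
    intro U a b g hU ha hg hg0 h0 hmono
    have h3 := h2 a 1 b g one_pos hg hg0 (fun x hx => h0 x (near hU ha hx)) hmono
    rw [Real.one_rpow, mul_one] at h3
    have e : ∀ x, ‖g x‖ₑ = ‖(g x : ℂ)‖ₑ := fun x => by
      rw [← ofReal_norm, ← ofReal_norm, Complex.norm_real]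
    simp only [e] at h3
    refine (eLpNorm_form hq hC (fun x hx => by simp [h0 x hx]) h3).trans
      (mul_le_mul' (ENNReal.ofReal_le_ofReal (le_max_right _ _)) le_rfl)
  refine ⟨max C (C ^ (1 / q)), hmax, key, ?_, ?_, ?_⟩
  · intro U a b A hU hAU hA hstar
    rcases A.eq_empty_or_nonempty with rfl | hne
    · have e : ext U (modulate b ((∅ : Set (E 2)).indicator fun _ => (1 : ℂ))) = 0 := by
        funext ξ
        simp [ext, modulate]
      rw [e, eLpNorm_zero]
      exact zero_le
    · have haA : a ∈ A := by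
        obtain ⟨y, hy⟩ := hne
        simpa using hstar hy (a := 1) (b := 0) zero_le_one le_rfl (by norm_num)
      have h3 := key U a b (A.indicator fun _ => (1 : ℝ)) hU (hU (hAU haA))
        (measurable_const.indicator hA) (fun x => indicator_nonneg (fun _ _ => zero_le_one) _)
        (fun x hx => indicator_of_notMem (fun hxA => hx (hAU hxA)) _) (star_indicator hstar)
      have e : (fun x : E 2 => ((A.indicator (fun _ => (1 : ℝ)) x : ℝ) : ℂ)) =
          A.indicator fun _ => (1 : ℂ) := by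
        funext x
        by_cases hx : x ∈ A
        · simp [hx]
        · simp [hx]
      rw [e] at h3
      refine h3.trans (mul_le_mul' le_rfl ?_)
      refine (eLpNorm_restrict_le _ _ _ _).trans ?_
      rw [eLpNorm_eq_lintegral_rpow_enorm_toReal (by simpa using hq0) ENNReal.ofReal_ne_top,
        ENNReal.toReal_ofReal hq0.le]
      refine ENNReal.rpow_le_rpow (le_of_eq ?_) (by positivity)
      simp only [enorm_modulate]
      rw [← lintegral_indicator_one hA]
      congr 1
      funext x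
      by_cases hx : x ∈ A
      · simp [hx]
      · simp [hx, hq0]
  · intro a R b f v hR hf hv h0 hvar
    refine (h1 a R b f v hR hf hv h0 hvar).trans (mul_le_mul' ?_ le_rfl)
    exact ENNReal.ofReal_le_ofReal
      (mul_le_mul_of_nonneg_right (le_max_left _ _) (by positivity))
  · intro a R b g hR hg hg0 h0 hmono
    refine (h2 a R b g hR hg hg0 h0 hmono).trans (mul_le_mul' ?_ le_rfl)
    exact ENNReal.ofReal_le_ofReal
      (mul_le_mul_of_nonneg_right (le_max_left _ _) (by positivity))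

end Pool.Agent.N245.Shelf.RayMonotone
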